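import Pool.Agent.Helper81.LT.Mod

/-!
MP_c20641_lc, packet TVT: families of functions closed under definable choice give elementary
substructures of the ultrapower.
-/

namespace Pool.Agent.Helper7.LT

open FirstOrder Language Filter Pool.Agent.Helper81.LT

attribute [local instance] stdStr

/-- the formula `φ(p, y)` of the bounded formula `φ` in `n + 1` variables -/
noncomputable def toF {n : ℕ} (φ : LA.BoundedFormula Empty (n + 1)) :
    LA.Formula (Fin n ⊕ Unit) :=
  Formula.relabel (Sum.elim Empty.elim fun i : Fin (n + 1) =>
    (Fin.lastCases (Sum.inr ()) (fun j => Sum.inl j) i : Fin n ⊕ Unit))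
    (BoundedFormula.toFormula φ)

theorem realize_toF {N : Type} [LA.Structure N] {n : ℕ} (φ : LA.BoundedFormula Empty (n + 1))
    (p : Fin n → N) (y : N) :
    (toF φ).Realize (Sum.elim p fun _ => y) ↔ φ.Realize default (Fin.snoc p y : _ → N) := by
  unfold toF
  rw [Formula.realize_relabel, BoundedFormula.realize_toFormula]
  have h1 : ((Sum.elim p fun _ : Unit => y) ∘ (Sum.elim Empty.elim fun i : Fin (n + 1) =>
      (Fin.lastCases (Sum.inr ()) (fun j => Sum.inl j) i : Fin n ⊕ Unit))) ∘ Sum.inr
      = (Fin.snoc p y : Fin (n + 1) → N) := by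
    funext i
    refine Fin.lastCases ?_ (fun j => ?_) i
    · simp
    · simp
  have h2 : ((Sum.elim p fun _ : Unit => y) ∘ (Sum.elim Empty.elim fun i : Fin (n + 1) =>
      (Fin.lastCases (Sum.inr ()) (fun j => Sum.inl j) i : Fin n ⊕ Unit))) ∘ Sum.inl
      = (default : Empty → N) := Subsingleton.elim _ _
  rw [h1, h2]

theorem tvt : TVT := by
  intro M _ _ _ _ U G hG
  have : Nonempty M := ⟨0⟩
  have hsurj : ∀ z : UP U, ∃ f : M → M, z = cls U f := by
    intro z
    obtain ⟨f, hf⟩ := Quotient.exists_rep z
    exact ⟨f, hf.symm⟩
  let S : LA.Substructure (UP U) :=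
    { carrier := {z | ∃ f ∈ G, z = cls U f}
      fun_mem := by
        intro n F x hx
        choose g hg hgx using hx
        let φ : LA.Formula (Fin n ⊕ Unit) :=
          (Term.var (Sum.inr ())).equal (Term.func F fun i => Term.var (Sum.inl i))
        obtain ⟨w, hw, h⟩ := hG n φ g hg
        refine ⟨w, hw, ?_⟩
        have hx' : x = fun i => cls U (g i) := funext hgx
        rw [hx']
        have hc := Ultraproduct.funMap_cast (M := fun _ : M => M) (u := U) F (fun i => g i)
        refine hc.trans ?_
        have hwv : ∀ v, w v = Structure.funMap F fun i => g i v := by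
          intro v
          have h1 : ∃ y, φ.Realize (Sum.elim (fun i => g i v) fun _ => y) :=
            ⟨Structure.funMap F fun i => g i v, by
              simp only [φ]
              rw [Formula.realize_equal]
              rfl⟩
          have h2 := h v h1
          simp only [φ] at h2
          rw [Formula.realize_equal] at h2
          exact h2
        have : w = fun v => Structure.funMap F fun i => g i v := funext hwv
        rw [this]
        rfl }
  have htv : ∀ (n : ℕ) (φ : LA.BoundedFormula Empty (n + 1)) (x : Fin n → S) (a : UP U),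
      φ.Realize default (Fin.snoc ((↑) ∘ x) a : _ → UP U) →
        ∃ b : S, φ.Realize default (Fin.snoc ((↑) ∘ x) b : _ → UP U) := by
    intro n φ x a ha
    have hx : ∀ i, ∃ f ∈ G, (x i : UP U) = cls U f := fun i => (x i).2
    choose g hg hgx using hx
    obtain ⟨f, rfl⟩ := hsurj a
    have hx' : ((↑) ∘ x : Fin n → UP U) = fun i => cls U (g i) := funext hgx
    rw [hx'] at ha ⊢
    obtain ⟨w, hw, h⟩ := hG n (toF φ) g hg
    have hL : ∀ f' : M → M, φ.Realize default (Fin.snoc (fun i => cls U (g i)) (cls U f') :
        _ → UP U) ↔ ∀ᶠ v in U, (toF φ).Realize (Sum.elim (fun i => g i v) fun _ => f' v) := by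
      intro f'
      rw [← realize_toF]
      have h1 := Ultraproduct.realize_formula_cast (M := fun _ : M => M) (u := U) (toF φ)
        (Sum.elim g fun _ => f')
      have e1 : (fun i => (((Sum.elim g fun _ => f') i : M → M) :
          (U : Filter M).Product fun _ => M)) =
          Sum.elim (fun i => cls U (g i)) fun _ : Unit => cls U f' := by
        funext i
        cases i <;> rfl
      rw [e1] at h1
      refine h1.trans ?_
      refine eventually_congr (Eventually.of_forall fun v => ?_)
      have e2 : (fun i => (Sum.elim g fun _ => f') i v) =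
          Sum.elim (fun i => g i v) fun _ : Unit => f' v := by
        funext i
        cases i <;> rfl
      rw [e2]
    refine ⟨⟨cls U w, w, hw, rfl⟩, ?_⟩
    refine (hL w).2 ?_
    refine ((hL f).1 ha).mono fun v hv => h v ⟨f v, hv⟩
  exact ⟨S.toElementarySubstructure htv, fun z => Iff.rfl⟩

end Pool.Agent.Helper7.LT
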