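import Pool.Agent.Helper81.LT.Inc
import Pool.Agent.Helper7.LT.TVT

/-!
MP_c20641_lc, packet PRM: the elements definable without parameters form an elementary
substructure of a model of PA.
-/

namespace Pool.Agent.Helper7.LT

open FirstOrder Language Filter Pool.Agent.Helper81.LT

attribute [local instance] stdStr

/-- `∃ y, (⋀ φ_i(y_i)) ∧ ψ(u, y)` -/
noncomputable def exDef {n : ℕ} (φ : Fin n → LA.Formula Unit) (ψ : LA.Formula (Unit ⊕ Fin n)) :
    LA.Formula Unit :=
  Formula.iExs (Fin n)
    ((Formula.iInf fun i => (φ i).relabel (fun _ : Unit => (Sum.inr i : Unit ⊕ Fin n))) ⊓ ψ)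

theorem realize_exDef {M : Type} [LA.Structure M] {n : ℕ} (φ : Fin n → LA.Formula Unit)
    (ψ : LA.Formula (Unit ⊕ Fin n)) (p : Fin n → M)
    (hp : ∀ i, ∀ x, (φ i).Realize (fun _ => x) ↔ x = p i) (x : M) :
    (exDef φ ψ).Realize (fun _ => x) ↔ ψ.Realize (Sum.elim (fun _ => x) p) := by
  unfold exDef
  rw [Formula.realize_iExs]
  constructor
  · rintro ⟨y, hy⟩
    rw [Formula.realize_inf, Formula.realize_iInf] at hy
    obtain ⟨h1, h2⟩ := hy
    have : y = p := by
      funext i
      have h3 := h1 i
      rw [Formula.realize_relabel] at h3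
      exact (hp i (y i)).1 h3
    subst this
    exact h2
  · intro h
    refine ⟨p, ?_⟩
    rw [Formula.realize_inf, Formula.realize_iInf]
    refine ⟨fun i => ?_, h⟩
    rw [Formula.realize_relabel]
    exact (hp i (p i)).2 rfl

/-- the formula `t < s` -/
def lt2 {α : Type} (t s : LA.Term α) : LA.Formula α :=
  Relations.formula₂ (L := LA) (ARel.lt : LA.Relations 2) t s

theorem realize_lt2 {M : Type} [Zero M] [One M] [Add M] [Mul M] [LT M] {α : Type}
    (t s : LA.Term α) (v : α → M) : (lt2 t s).Realize v ↔ t.realize v < s.realize v :=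
  (Formula.realize_rel₂ (L := LA) (R := (ARel.lt : LA.Relations 2))).trans Iff.rfl

theorem prm (hO : OVER) : PRM := by
  intro M _ _ _ _
  let S : LA.Substructure M :=
    { carrier := {a | ∃ φ : LA.Formula Unit, ∀ x, φ.Realize (fun _ => x) ↔ x = a}
      fun_mem := by
        intro n F a ha
        choose φ hφ using ha
        refine ⟨exDef φ ((Term.var (Sum.inl ())).equal
          (Term.func F fun i => Term.var (Sum.inr i))), fun x => ?_⟩
        rw [realize_exDef φ _ a hφ, Formula.realize_equal]
        exact Iff.rfl }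
  have htv : ∀ (n : ℕ) (φ : LA.BoundedFormula Empty (n + 1)) (x : Fin n → S) (a : M),
      φ.Realize default (Fin.snoc ((↑) ∘ x) a : _ → M) →
        ∃ b : S, φ.Realize default (Fin.snoc ((↑) ∘ x) b : _ → M) := by
    intro n φ x a ha
    have hx : ∀ i, ∃ ψ : LA.Formula Unit, ∀ y, ψ.Realize (fun _ => y) ↔ y = (x i : M) :=
      fun i => (x i).2
    choose ψ hψ using hx
    let p : Fin n → M := fun i => (x i : M)
    have hp : ((↑) ∘ x : Fin n → M) = p := rfl
    rw [hp] at ha ⊢
    rw [← realize_toF] at ha
    have hD : Dfn (fun v : Unit → M => (toF φ).Realize (Sum.elim p fun _ => v ())) := by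
      refine ⟨(toF φ).relabel (Sum.elim (fun i => Sum.inr (p i)) fun _ => Sum.inl ()),
        fun v => ?_⟩
      rw [Formula.realize_relabel]
      have : (Sum.elim v id ∘ Sum.elim (fun i => Sum.inr (p i)) fun _ => Sum.inl () :
          Fin n ⊕ Unit → M) = Sum.elim p fun _ => v () := by
        funext i
        cases i <;> rfl
      rw [this]
    obtain ⟨b, hb, hmin⟩ := (hO M).1 (fun y => (toF φ).Realize (Sum.elim p fun _ => y)) hD ⟨a, ha⟩
    let χ : LA.Formula (Unit ⊕ Fin n) :=
      ((toF φ).relabel (Sum.elim (fun i => Sum.inr i) fun _ => Sum.inl ())) ⊓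
        Formula.iAlls Unit
          ((lt2 (α := (Unit ⊕ Fin n) ⊕ Unit)
            (Term.var (Sum.inr ())) (Term.var (Sum.inl (Sum.inl ())))).imp
            ((toF φ).relabel (Sum.elim (fun i => Sum.inl (Sum.inr i)) fun _ => Sum.inr ())).not)
    refine ⟨⟨b, exDef ψ χ, fun y => ?_⟩, ?_⟩
    · rw [realize_exDef ψ χ p hψ]
      simp only [χ]
      rw [Formula.realize_inf, Formula.realize_relabel, Formula.realize_iAlls]
      have e1 : (Sum.elim (fun _ : Unit => y) p ∘ Sum.elim (fun i => Sum.inr i) fun _ => Sum.inl () :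
          Fin n ⊕ Unit → M) = Sum.elim p fun _ => y := by
        funext i
        cases i <;> rfl
      rw [e1]
      have e2 : ∀ z : Unit → M,
          (((lt2 (α := (Unit ⊕ Fin n) ⊕ Unit)
            (Term.var (Sum.inr ())) (Term.var (Sum.inl (Sum.inl ())))).imp
            ((toF φ).relabel (Sum.elim (fun i => Sum.inl (Sum.inr i))
              fun _ => Sum.inr ())).not).Realize
              (fun a => Sum.elim (Sum.elim (fun _ : Unit => y) p) z a)) ↔
            (z () < y → ¬ (toF φ).Realize (Sum.elim p fun _ => z ())) := by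
        intro z
        rw [Formula.realize_imp, Formula.realize_not, realize_lt2, Formula.realize_relabel]
        have e3 : ((fun a => Sum.elim (Sum.elim (fun _ : Unit => y) p) z a) ∘
            Sum.elim (fun i => Sum.inl (Sum.inr i)) fun _ => Sum.inr () :
            Fin n ⊕ Unit → M) = Sum.elim p fun _ => z () := by
          funext i
          cases i <;> rfl
        rw [e3]
        exact Iff.rfl
      constructor
      · rintro ⟨h1, h2⟩
        have h3 : ∀ z : M, z < y → ¬ (toF φ).Realize (Sum.elim p fun _ => z) := fun z =>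
          (e2 fun _ => z).1 (h2 fun _ => z)
        rcases lt_trichotomy y b with h | h | h
        · exact absurd h1 (hmin y h)
        · exact h
        · exact absurd hb (h3 b h)
      · rintro rfl
        exact ⟨hb, fun z => (e2 z).2 (hmin (z ()))⟩
    · rw [← realize_toF]
      exact hb
  exact ⟨S.toElementarySubstructure htv, fun z => Iff.rfl⟩

end Pool.Agent.Helper7.LT
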